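import Pool.Agent.W845.HC.Base

open Classical

namespace Pool.Agent.W121.HC
open Pool.Agent.W845.HC

section
variable {V : Type} [Fintype V]

/-- vertices lying on a cycle -/
noncomputable def Sc (F : SimpleGraph V) : Finset V :=
  Finset.univ.filter (fun v => ∃ c : F.Walk v v, c.IsCycle)

theorem nb {F : SimpleGraph V} (hd : ∀ v, dg F v ≤ 2) {u : V} {c : F.Walk u u} (hc : c.IsCycle)
    {v w : V} (hv : v ∈ c.support) (hw : F.Adj v w) : s(v, w) ∈ c.edges := by
  have h2 := hc.ncard_neighborSet_toSubgraph_eq_two hv
  have hsub : c.toSubgraph.neighborSet v ⊆ {w | F.Adj v w} := by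
    intro x hx
    exact c.toSubgraph.adj_sub hx
  have hcard : ({w | F.Adj v w} : Set V).ncard ≤ 2 := by
    have h := hd v
    unfold dg at h
    rw [Set.ncard_eq_toFinset_card']
    refine le_trans (le_of_eq ?_) h
    congr 1
    ext x
    simp
  have heq := Set.eq_of_subset_of_ncard_le hsub (by rw [h2]; exact hcard) (Set.toFinite _)
  have hm : w ∈ c.toSubgraph.neighborSet v := by
    rw [heq]; exact hw
  have h3 : c.toSubgraph.Adj v w := hm
  exact (SimpleGraph.Walk.adj_toSubgraph_iff_mem_edges).1 h3

theorem closed {F : SimpleGraph V} (hd : ∀ v, dg F v ≤ 2) {u : V} {c : F.Walk u u}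
    (hc : c.IsCycle) {a b : V} (p : F.Walk a b) (ha : a ∈ c.support) : b ∈ c.support := by
  induction p with
  | nil => exact ha
  | cons h p ih =>
    exact ih (SimpleGraph.Walk.snd_mem_support_of_mem_edges c (nb hd hc ha h))

theorem len {F : SimpleGraph V} {L : ℕ} (hN : NS L F) {u : V} {c : F.Walk u u}
    (hc : c.IsCycle) : L + 3 ≤ c.support.toFinset.card := by
  set E : SimpleGraph V := SimpleGraph.fromEdgeSet {e | e ∈ c.edges} with hE
  have hEF : E ≤ F := by
    intro a b hab
    rw [hE, SimpleGraph.fromEdgeSet_adj] at hab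
    exact c.adj_of_mem_edges hab.1
  have htr : ∀ e ∈ c.edges, e ∈ E.edgeSet := by
    intro e he
    rw [hE, SimpleGraph.edgeSet_fromEdgeSet]
    refine ⟨he, ?_⟩
    intro hd
    exact SimpleGraph.not_isDiag_of_mem_edgeSet F (c.edges_subset_edgeSet he) hd
  have hnot : ¬ E.IsAcyclic := by
    intro h
    exact h _ (hc.transfer htr)
  have h1 : L + 2 < ec E := by
    by_contra h
    exact hnot (hN E hEF (by omega))
  have h2 : ec E ≤ c.edges.toFinset.card := by
    unfold ec
    rw [hE, SimpleGraph.edgeSet_fromEdgeSet, ← Set.ncard_coe_finset]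
    refine Set.ncard_le_ncard ?_ (Set.toFinite _)
    intro e he
    simpa using he.1
  have h3 : c.edges.toFinset.card ≤ c.length := by
    refine (List.toFinset_card_le _).trans ?_
    rw [SimpleGraph.Walk.length_edges]
  have h4 : c.support.tail.toFinset.card = c.length := by
    rw [List.toFinset_card_of_nodup hc.support_nodup]
    simp
  have h5 : c.support.tail.toFinset.card ≤ c.support.toFinset.card := by
    refine Finset.card_le_card ?_
    intro x hx
    rw [List.mem_toFinset] at hx ⊢
    exact List.mem_of_mem_tail hx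
  omega

theorem brk0 (L : ℕ) : ∀ (n : ℕ) (F : SimpleGraph V), ec F = n → NS L F → (∀ v, dg F v ≤ 2) →
    ∃ F' : SimpleGraph V, F' ≤ F ∧ IsLF F' ∧
      ec F * (L + 3) ≤ ec F' * (L + 3) + (Sc F).card := by
  intro n
  induction n with
  | zero =>
    intro F h0 hN hd
    refine ⟨F, le_refl _, ⟨hN F le_rfl (by omega), hd⟩, by omega⟩
  | succ n ih =>
    intro F hn hN hd
    by_cases hA : F.IsAcyclic
    · exact ⟨F, le_refl _, ⟨hA, hd⟩, by omega⟩
    · unfold SimpleGraph.IsAcyclic at hA
      push Not at hA
      obtain ⟨v, c, hc⟩ := hA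
      have hvw : F.Adj v c.snd := c.adj_snd hc.not_nil
      set w := c.snd with hw
      set F1 : SimpleGraph V := F.deleteEdges {s(v, w)} with hF1
      have hle : F1 ≤ F := SimpleGraph.deleteEdges_le _
      have hec : ec F1 = n := by
        unfold ec at hn ⊢
        rw [hF1, SimpleGraph.edgeSet_deleteEdges, Set.ncard_diff_singleton_of_mem, hn]
        · rfl
        · exact hvw
      have hN1 : NS L F1 := fun E hE h => hN E (hE.trans hle) h
      have hd1 : ∀ x, dg F1 x ≤ 2 := by
        intro x
        refine le_trans ?_ (hd x)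
        unfold dg
        refine Finset.card_le_card ?_
        intro y hy
        simp only [Finset.mem_filter, Finset.mem_univ, true_and] at hy ⊢
        exact hle hy
      obtain ⟨F', h1, h2, h3⟩ := ih F1 hec hN1 hd1
      refine ⟨F', h1.trans hle, h2, ?_⟩
      have hS : (Sc F1).card + c.support.toFinset.card ≤ (Sc F).card := by
        rw [← Finset.card_union_of_disjoint]
        · refine Finset.card_le_card ?_
          intro x hx
          rcases Finset.mem_union.1 hx with h | h
          · obtain ⟨c', hc'⟩ := (Finset.mem_filter.1 h).2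
            exact Finset.mem_filter.2 ⟨Finset.mem_univ _, c'.mapLe hle, hc'.mapLe hle⟩
          · rw [List.mem_toFinset] at h
            exact Finset.mem_filter.2 ⟨Finset.mem_univ _, c.rotate x h, hc.rotate h⟩
        · rw [Finset.disjoint_left]
          intro x hx hxc
          rw [List.mem_toFinset] at hxc
          obtain ⟨c', hc'⟩ := (Finset.mem_filter.1 hx).2
          have hc2 := hc'.mapLe hle
          have hv : v ∈ (c'.mapLe hle).support :=
            closed hd hc2 (c.takeUntil x hxc).reverse (SimpleGraph.Walk.start_mem_support _)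
          have he := nb hd hc2 hv hvw
          have he' : s(v, w) ∈ c'.edges := by simpa using he
          have := c'.edges_subset_edgeSet he'
          rw [hF1, SimpleGraph.edgeSet_deleteEdges] at this
          exact this.2 rfl
      have hl := len hN hc
      have h4 : ec F = ec F1 + 1 := by omega
      rw [h4, add_mul]
      omega

end

theorem brk : S_BREAK := by
  intro V _ F L hN hd
  obtain ⟨F', h1, h2, h3⟩ := brk0 L (ec F) F rfl hN hd
  refine ⟨F', h1, h2, ?_⟩
  have h4 : ec F * (L + 3) ≤ ec F' * (L + 3) + Fintype.card V :=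
    h3.trans (Nat.add_le_add_left (Finset.card_le_univ _) _)
  have h5 : (ec F : ℝ) * (L + 3) ≤ (ec F' : ℝ) * (L + 3) + (Fintype.card V : ℝ) := by
    exact_mod_cast h4
  have hpos : (0 : ℝ) < (L : ℝ) + 3 := by positivity
  rw [← sub_le_iff_le_add', le_div_iff₀ hpos]
  linarith

end Pool.Agent.W121.HC
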