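import Pool.Agent.W845.HC.Base

open Classical

namespace Pool.Agent.W121.HC
open Pool.Agent.W845.HC

section
variable {V : Type} [Fintype V]

/-- admissible sets of pairs -/
def Good (A : V → V → Prop) (M : Finset (V × V)) : Prop :=
  (∀ e ∈ M, A e.1 e.2) ∧
    (∀ v, (M.filter (fun e => e.1 = v)).card ≤ 2) ∧
    (∀ v, (M.filter (fun e => e.2 = v)).card ≤ 2)

/-- left vertices reached after k alternating double steps -/
def Lv (A : V → V → Prop) (M : Finset (V × V)) : ℕ → V → Prop
  | 0, u => (M.filter (fun e => e.1 = u)).card < 2
  | k + 1, u => ∃ v w, (u, v) ∈ M ∧ Lv A M k w ∧ A w v ∧ (w, v) ∉ M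

theorem key (A : V → V → Prop) (m : ℕ) (hm : ∀ M, Good A M → M.card ≤ m) :
    ∀ k, ∀ M, Good A M → M.card = m → ∀ u v, Lv A M k u → A u v → (u, v) ∉ M →
      2 ≤ (M.filter (fun e => e.2 = v)).card := by
  intro k
  induction k using Nat.strong_induction_on with
  | _ k ih =>
  intro M hM hMm u v hu huv hnot
  by_contra hlt
  push Not at hlt
  rcases k with _ | k
  · -- add the pair
    have hG : Good A (insert (u, v) M) := by
      refine ⟨?_, ?_, ?_⟩
      · intro e he
        rcases Finset.mem_insert.1 he with h | h
        · subst h; exact huv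
        · exact hM.1 e h
      · intro x
        rw [Finset.filter_insert]
        split_ifs with h
        · simp only at h
          subst h
          refine (Finset.card_insert_le _ _).trans ?_
          simp only [Lv] at hu
          omega
        · exact hM.2.1 x
      · intro x
        rw [Finset.filter_insert]
        split_ifs with h
        · simp only at h
          subst h
          refine (Finset.card_insert_le _ _).trans ?_
          omega
        · exact hM.2.2 x
    have := hm _ hG
    rw [Finset.card_insert_of_notMem hnot] at this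
    omega
  · have hmin : ∀ j < k + 1, ¬ Lv A M j u := by
      intro j hj hL
      have := ih j hj M hM hMm u v hL huv hnot
      omega
    obtain ⟨v1, w, h1, h2, h3, h4⟩ := hu
    have hv : v1 ≠ v := by
      rintro rfl
      exact hnot h1
    set M' : Finset (V × V) := insert (u, v) (M.erase (u, v1)) with hM'
    have hnot' : (u, v) ∉ M.erase (u, v1) := fun h => hnot (Finset.mem_of_mem_erase h)
    have hcard : M'.card = M.card := by
      rw [hM', Finset.card_insert_of_notMem hnot', Finset.card_erase_of_mem h1]
      have : 0 < M.card := Finset.card_pos.2 ⟨_, h1⟩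
      omega
    have hrow : ∀ x, (M'.filter (fun e => e.1 = x)).card = (M.filter (fun e => e.1 = x)).card := by
      intro x
      by_cases hx : x = u
      · subst hx
        rw [hM', Finset.filter_insert, if_pos rfl, Finset.filter_erase,
          Finset.card_insert_of_notMem, Finset.card_erase_of_mem]
        · have : 0 < (M.filter (fun e => e.1 = x)).card :=
            Finset.card_pos.2 ⟨(x, v1), Finset.mem_filter.2 ⟨h1, rfl⟩⟩
          omega
        · exact Finset.mem_filter.2 ⟨h1, rfl⟩
        · intro h
          exact hnot (Finset.mem_filter.1 (Finset.mem_of_mem_erase h)).1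
      · congr 1
        ext e
        simp only [hM', Finset.mem_filter, Finset.mem_insert, Finset.mem_erase]
        constructor
        · rintro ⟨h | ⟨_, h⟩, h'⟩
          · subst h
            exact absurd h'.symm hx
          · exact ⟨h, h'⟩
        · rintro ⟨h, h'⟩
          refine ⟨Or.inr ⟨?_, h⟩, h'⟩
          rintro rfl
          exact hx h'.symm
    have hG : Good A M' := by
      refine ⟨?_, ?_, ?_⟩
      · intro e he
        rcases Finset.mem_insert.1 he with h | h
        · subst h; exact huv
        · exact hM.1 e (Finset.mem_of_mem_erase h)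
      · intro x
        rw [hrow]
        exact hM.2.1 x
      · intro x
        rw [hM', Finset.filter_insert]
        split_ifs with h
        · simp only at h
          subst h
          refine (Finset.card_insert_le _ _).trans ?_
          have : ((M.erase (u, v1)).filter (fun e => e.2 = v)).card ≤
              (M.filter (fun e => e.2 = v)).card :=
            Finset.card_le_card (Finset.filter_subset_filter _ (Finset.erase_subset _ _))
          omega
        · exact (Finset.card_le_card
            (Finset.filter_subset_filter _ (Finset.erase_subset _ _))).trans (hM.2.2 x)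
    have hmem : ∀ a b, a ≠ u → ((a, b) ∈ M' ↔ (a, b) ∈ M) := by
      intro a b ha
      simp only [hM', Finset.mem_insert, Finset.mem_erase, Prod.mk.injEq]
      constructor
      · rintro (⟨h, _⟩ | ⟨_, h⟩)
        · exact absurd h ha
        · exact h
      · intro h
        exact Or.inr ⟨fun h' => ha (congrArg Prod.fst h'), h⟩
    have hL : ∀ j < k + 1, ∀ x, Lv A M j x → Lv A M' j x := by
      intro j
      induction j with
      | zero =>
        intro _ x hx
        simp only [Lv] at hx ⊢
        rw [hrow]
        exact hx
      | succ j ihj =>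
        intro hj x hx
        have hxu : x ≠ u := by
          rintro rfl
          exact hmin _ hj hx
        obtain ⟨y, z, g1, g2, g3, g4⟩ := hx
        have hzu : z ≠ u := by
          rintro rfl
          exact hmin _ (by omega) g2
        exact ⟨y, z, (hmem _ _ hxu).2 g1, ihj (by omega) z g2, g3,
          fun h => g4 ((hmem _ _ hzu).1 h)⟩
    have hw : (w, v1) ∉ M' := by
      simp only [hM', Finset.mem_insert, Finset.mem_erase, Prod.mk.injEq]
      rintro (⟨_, h⟩ | ⟨_, h⟩)
      · exact hv h
      · exact h4 h
    have h5 := ih k (by omega) M' hG (hcard.trans hMm) w v1 (hL k (by omega) w h2) h3 hw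
    have h6 : (M'.filter (fun e => e.2 = v1)).card + 1 ≤ (M.filter (fun e => e.2 = v1)).card := by
      rw [hM', Finset.filter_insert, if_neg (by simpa using hv.symm), Finset.filter_erase,
        Finset.card_erase_of_mem (show (u, v1) ∈ M.filter (fun e => e.2 = v1) from
          Finset.mem_filter.2 ⟨h1, rfl⟩)]
      have : 0 < (M.filter (fun e => e.2 = v1)).card :=
        Finset.card_pos.2 ⟨(u, v1), Finset.mem_filter.2 ⟨h1, rfl⟩⟩
      omega
    have h7 := hM.2.2 v1
    omega

end

theorem flow : S_FLOW := by
  intro V _ A
  have hne : ((Finset.univ : Finset (Finset (V × V))).filter (Good A)).Nonempty := by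
    refine ⟨∅, Finset.mem_filter.2 ⟨Finset.mem_univ _, ?_⟩⟩
    refine ⟨by simp, by simp, by simp⟩
  obtain ⟨M, hM, hmax⟩ := Finset.exists_max_image _ Finset.card hne
  have hG : Good A M := (Finset.mem_filter.1 hM).2
  have hmax' : ∀ M', Good A M' → M'.card ≤ M.card := fun M' h =>
    hmax M' (Finset.mem_filter.2 ⟨Finset.mem_univ _, h⟩)
  have hkey := key A M.card hmax'
  refine ⟨M, hG.1, hG.2.1, hG.2.2, ?_⟩
  set X : Finset V := Finset.univ.filter (fun u => ∀ k, ¬ Lv A M k u) with hX
  set Y : Finset V := Finset.univ.filter
    (fun v => ∃ k u, Lv A M k u ∧ A u v ∧ (u, v) ∉ M) with hY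
  refine ⟨X, Y, ?_⟩
  have hYX : ∀ e ∈ M, e.2 ∈ Y → e.1 ∉ X := by
    intro e he h2 h1
    obtain ⟨k, u, g1, g2, g3⟩ := (Finset.mem_filter.1 h2).2
    exact (Finset.mem_filter.1 h1).2 (k + 1) ⟨e.2, u, he, g1, g2, g3⟩
  have c1 : 2 * Y.card ≤ (M.filter (fun e => e.2 ∈ Y)).card := by
    rw [Finset.card_eq_sum_card_fiberwise (s := M.filter (fun e => e.2 ∈ Y)) (t := Y)
      (f := fun e => e.2) (fun e he => (Finset.mem_filter.1 he).2)]
    rw [mul_comm, ← smul_eq_mul]
    refine Finset.card_nsmul_le_sum _ _ _ ?_
    intro v hv
    obtain ⟨k, u, g1, g2, g3⟩ := (Finset.mem_filter.1 hv).2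
    refine (hkey k M hG rfl u v g1 g2 g3).trans (Finset.card_le_card ?_)
    intro e he
    have h := Finset.mem_filter.1 he
    exact Finset.mem_filter.2 ⟨Finset.mem_filter.2 ⟨h.1, by rw [h.2]; exact hv⟩, h.2⟩
  have c2 : 2 * X.card ≤ (M.filter (fun e => e.1 ∈ X)).card := by
    rw [Finset.card_eq_sum_card_fiberwise (s := M.filter (fun e => e.1 ∈ X)) (t := X)
      (f := fun e => e.1) (fun e he => (Finset.mem_filter.1 he).2)]
    rw [mul_comm, ← smul_eq_mul]
    refine Finset.card_nsmul_le_sum _ _ _ ?_
    intro u hu
    have h0 := (Finset.mem_filter.1 hu).2 0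
    simp only [Lv, not_lt] at h0
    refine h0.trans (Finset.card_le_card ?_)
    intro e he
    have h := Finset.mem_filter.1 he
    exact Finset.mem_filter.2 ⟨Finset.mem_filter.2 ⟨h.1, by rw [h.2]; exact hu⟩, h.2⟩
  have c3 : (Finset.univ.filter (fun e : V × V => e.1 ∉ X ∧ e.2 ∉ Y ∧ A e.1 e.2)).card ≤
      (M.filter (fun e => e.1 ∉ X ∧ e.2 ∉ Y)).card := by
    refine Finset.card_le_card ?_
    intro e he
    have h := (Finset.mem_filter.1 he).2
    refine Finset.mem_filter.2 ⟨?_, h.1, h.2.1⟩
    by_contra hn
    apply h.2.1
    have h1 := h.1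
    rw [hX, Finset.mem_filter] at h1
    push Not at h1
    obtain ⟨k, hk⟩ := h1 (Finset.mem_univ _)
    exact Finset.mem_filter.2 ⟨Finset.mem_univ _, k, e.1, hk, h.2.2, hn⟩
  have c4 : (M.filter (fun e => e.2 ∈ Y)).card + (M.filter (fun e => e.1 ∈ X)).card +
      (M.filter (fun e => e.1 ∉ X ∧ e.2 ∉ Y)).card ≤ M.card := by
    rw [← Finset.card_union_of_disjoint, ← Finset.card_union_of_disjoint]
    · refine Finset.card_le_card ?_
      intro e he
      simp only [Finset.mem_union, Finset.mem_filter] at he
      rcases he with (h | h) | h <;> exact h.1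
    · rw [Finset.disjoint_left]
      intro e he hc
      simp only [Finset.mem_union, Finset.mem_filter] at he hc
      rcases he with h | h
      · exact hc.2.2 h.2
      · exact hc.2.1 h.2
    · rw [Finset.disjoint_left]
      intro e he hc
      simp only [Finset.mem_filter] at he hc
      exact hYX e he.1 he.2 hc.2
  omega

end Pool.Agent.W121.HC
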