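import Pool.Agent.W845.HC.Base

open Classical

namespace Pool.Agent.W121.HC
open Pool.Agent.W845.HC Pool.Agent.W845.PM

theorem EG_adj (n : ℕ) (p : ℝ) (x y : Fin n) (hxy : x ≠ y) :
    EG n p (fun G => if G.Adj x y then (1 : ℝ) else 0) = p := by
  set e : Fin 2 ↪ Fin n := ⟨fun i => if i = 0 then x else y, by
    intro i j hij
    fin_cases i <;> fin_cases j
    · rfl
    · exact absurd (by simpa using hij) hxy
    · exact absurd (by simpa using hij.symm) hxy
    · rfl⟩ with he
  have h := comT 2 n e p (fun G => if G.Adj 0 1 then (1 : ℝ) else 0)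
  have h1 : (fun G : SimpleGraph (Fin n) => (fun G : SimpleGraph (Fin 2) =>
      if G.Adj 0 1 then (1 : ℝ) else 0) (G.comap e)) =
      (fun G => if G.Adj x y then (1 : ℝ) else 0) := by
    funext G
    simp [he]
  rw [h1] at h
  rw [h]
  unfold EG
  rw [Finset.sum_eq_single (⊤ : SimpleGraph (Fin 2))]
  · have hc : (⊤ : SimpleGraph (Fin 2)).edgeSet.ncard = 1 := by
      rw [Set.ncard_eq_toFinset_card']
      have := SimpleGraph.card_edgeFinset_top_eq_card_choose_two (V := Fin 2)
      simp only [Fintype.card_fin] at this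
      simpa using this
    unfold wt
    rw [hc]
    simp
  · intro G _ hG
    have : ¬ G.Adj 0 1 := by
      intro h01
      apply hG
      ext a b
      rw [SimpleGraph.top_adj]
      fin_cases a <;> fin_cases b
      · simp
      · simpa using h01
      · simpa using h01.symm
      · simp
    simp [this]
  · intro h
    exact absurd (Finset.mem_univ _) h

theorem ec_le (n : ℕ) (G : SimpleGraph (Fin n)) :
    (ec G : ℝ) ≤ ∑ e : Fin n × Fin n, (if G.Adj e.1 e.2 then (1 : ℝ) else 0) := by
  rw [Finset.sum_boole]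
  norm_cast
  unfold ec
  have hsub : G.edgeSet ⊆ (fun e : Fin n × Fin n => s(e.1, e.2)) ''
      ((Finset.univ.filter (fun e : Fin n × Fin n => G.Adj e.1 e.2) : Finset _) : Set _) := by
    intro e
    induction e with
    | h a b =>
      intro h
      exact ⟨(a, b), by simpa using h, rfl⟩
  refine (Set.ncard_le_ncard hsub (Set.toFinite _)).trans ?_
  refine (Set.ncard_image_le (Set.toFinite _)).trans ?_
  rw [Set.ncard_coe_finset]

theorem EG_ec (n : ℕ) (p : ℝ) (h0 : 0 ≤ p) (h1 : p ≤ 1) :
    EG n p (fun G => (ec G : ℝ)) ≤ (n : ℝ) ^ 2 * p := by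
  refine (EG_mono h0 h1 (ec_le n)).trans ?_
  rw [EG_sum]
  refine (Finset.sum_le_sum (g := fun _ => p) ?_).trans ?_
  · intro e _
    by_cases h : e.1 = e.2
    · have : (fun G : SimpleGraph (Fin n) => if G.Adj e.1 e.2 then (1 : ℝ) else 0) =
          fun _ => (0 : ℝ) := by
        funext G
        rw [h]
        simp
      rw [this]
      simp [EG, h0]
    · rw [EG_adj n p _ _ h]
  · simp [sq]

theorem ec_mono {V : Type} [Fintype V] {F G : SimpleGraph V} (h : F ≤ G) : ec F ≤ ec G := by
  unfold ec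
  exact Set.ncard_le_ncard (SimpleGraph.edgeSet_mono h) (Set.toFinite _)

theorem pst1 : S_LAM → S_MON → S_GROW → S_PST1 := by
  intro hL hM hG a b ha hb
  obtain ⟨hL1, hL2, hL3, hL4, hL5, hL6⟩ := hL
  set a' : ℝ := min a (1 / 2) with ha'
  have ha0 : 0 < a' := lt_min ha (by norm_num)
  have ha1 : a' ≤ 1 / 2 := min_le_right _ _
  obtain ⟨N, hN⟩ := hG a' ha0 (by linarith)
  obtain ⟨K, hK⟩ := exists_nat_gt (16 / a' ^ 4)
  refine ⟨1 - 2 * b, (K + 1) * (a' ^ 2 / 4), max N 1, by linarith, by positivity, ?_⟩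
  intro n d p hn had hdb hC
  obtain ⟨hp0, hp1, hE⟩ := hC
  have hn1 : 1 ≤ n := (le_max_right _ _).trans hn
  have hnN : N ≤ n := (le_max_left _ _).trans hn
  have hnR : (0 : ℝ) < n := by exact_mod_cast hn1
  have hdn : d ≤ n := by
    have : (d : ℝ) ≤ n := by nlinarith
    exact_mod_cast this
  have hcast : ((n - d : ℕ) : ℝ) = (n : ℝ) - d := by
    rw [Nat.cast_sub hdn]
  constructor
  · have h1 : EG (n - d) p (fun G => (lam G : ℝ)) ≤ EG (n - d) p (fun G => (ec G : ℝ)) := by
      refine EG_mono hp0 hp1 (fun G => ?_)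
      obtain ⟨F, g1, g2, g3⟩ := hL1 _ G
      rw [← g3]
      exact_mod_cast ec_mono g1
    have h2 := EG_ec (n - d) p hp0 hp1
    rw [hE] at h1
    have h3 : ((n - d : ℕ) : ℝ) ^ 2 * p ≤ (n : ℝ) ^ 2 * p := by
      refine mul_le_mul_of_nonneg_right ?_ hp0
      rw [hcast]
      have hd0 : (0 : ℝ) ≤ d := Nat.cast_nonneg _
      have : (0 : ℝ) ≤ (n : ℝ) - d := by
        rw [← hcast]; positivity
      nlinarith
    rw [div_le_iff₀ hnR]
    have h4 : (1 - 2 * b) * n ≤ (n : ℝ) ^ 2 * p := by nlinarith
    nlinarith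
  · by_contra hlt
    push Not at hlt
    set q : ℝ := a' ^ 2 / 4 / n with hq
    have hq0 : 0 ≤ q := by positivity
    have hq1 : q ≤ 1 := by
      rw [hq, div_le_one hnR]
      have : (1 : ℝ) ≤ n := by exact_mod_cast hn1
      nlinarith
    have hpow : ∀ i : ℕ, 0 ≤ 1 - (1 - q) ^ i ∧ 1 - (1 - q) ^ i ≤ 1 ∧
        1 - (1 - q) ^ i ≤ i * q := by
      intro i
      have g0 : 0 ≤ 1 - q := by linarith
      refine ⟨?_, ?_, ?_⟩
      · have := pow_le_one₀ (n := i) g0 (by linarith)
        linarith
      · have := pow_nonneg g0 i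
        linarith
      · have := one_add_mul_le_pow (a := -q) (by linarith) i
        have e1 : (1 + -q) = 1 - q := by ring
        rw [e1] at this
        linarith
    have hup : ∀ i : ℕ, i ≤ K → 1 - (1 - q) ^ i ≤ p := by
      intro i hi
      refine (hpow i).2.2.trans (le_trans ?_ hlt.le)
      have : (i : ℝ) ≤ (K : ℝ) + 1 := by
        have : (i : ℝ) ≤ (K : ℝ) := by exact_mod_cast hi
        linarith
      rw [hq]
      rw [mul_div_assoc]
      exact mul_le_mul_of_nonneg_right this hq0
    have hmon : ∀ i : ℕ, i ≤ K →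
        EG (n - d) (1 - (1 - q) ^ i) (fun G => (lam G : ℝ)) ≤ (n : ℝ) - 2 * d := by
      intro i hi
      rw [← hE]
      refine hM _ _ _ _ (hpow i).1 (hup i hi) hp1 ?_
      intro G G' hGG
      exact_mod_cast hL3 _ G G' hGG
    have hind : ∀ i : ℕ, i ≤ K →
        (i : ℝ) * (a' ^ 4 / 16 * n) ≤
          EG (n - d) (1 - (1 - q) ^ i) (fun G => (lam G : ℝ)) := by
      intro i
      induction i with
      | zero =>
        intro _
        simp only [Nat.cast_zero, zero_mul]
        exact EG_nonneg (hpow 0).1 (hpow 0).2.1 (fun G => Nat.cast_nonneg _)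
      | succ i ih =>
        intro hi
        have h1 := ih (by omega)
        have h2 := hN n (n - d) (1 - (1 - q) ^ i) q hnN (Nat.sub_le _ _) (hpow i).1
          (hpow i).2.1 hq0 (le_of_eq hq) (by
            rw [hcast]
            have h3 := hmon i (by omega)
            have h4 : a' * n ≤ d := by
              refine le_trans ?_ had
              exact mul_le_mul_of_nonneg_right (min_le_left _ _) hnR.le
            linarith)
        have e1 : 1 - (1 - q) ^ i + q - (1 - (1 - q) ^ i) * q = 1 - (1 - q) ^ (i + 1) := by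
          ring
        rw [e1] at h2
        have e2 : a' ^ 2 / 4 * (n : ℝ) ^ 2 * q = a' ^ 4 / 16 * n := by
          rw [hq]
          field_simp
          ring
        rw [e2] at h2
        push_cast
        linarith
    have h5 := hind K le_rfl
    have h6 := hmon K le_rfl
    have h7 : (K : ℝ) * (a' ^ 4 / 16 * n) ≤ n := by
      have : (0 : ℝ) ≤ d := Nat.cast_nonneg _
      linarith
    have h8 : 16 < (K : ℝ) * a' ^ 4 := by
      rw [div_lt_iff₀ (by positivity)] at hK
      exact hK
    nlinarith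

end Pool.Agent.W121.HC
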